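import Mathlib

set_option autoImplicit false

/-!
# MP_d64b07_co: the clique number of a graph with an elementary complement

Let `P` be an equivalence relation all of whose classes are independent in `G`, such that two
non-neighbours of `y` outside the class of `y` are equal or not adjacent. Then `G` can be coloured
with `G.cliqueNum` colours. (In the language of Chvátal and Sbihi the complement of `G` is an
elementary graph.) The proof is an alternating path argument.
-/

universe u

namespace Pool.Agent.Lib.MP_d64b07_co

open Finset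

section

variable {V : Type u} {G : SimpleGraph V} {P : Setoid V}

/-- `u` is a non-neighbour of `x` in another class. -/
private def Blue (G : SimpleGraph V) (P : Setoid V) (x u : V) : Prop := ¬ G.Adj x u ∧ ¬ P x u

/-- One step of an alternating path. -/
private def Step (G : SimpleGraph V) (P : Setoid V) (I : Finset V) (b : V) (x y : V) : Prop :=
  b ∈ I ∧ Blue G P x b ∧ P b y ∧ G.Adj x y

private theorem blue_symm {x u : V} (h : Blue G P x u) : Blue G P u x :=
  ⟨fun h' => h.1 h'.symm, fun h' => h.2 (P.symm h')⟩

/-- The alternating path argument. -/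
private theorem no_path [Finite V] (hP : ∀ x y, P x y → ¬ G.Adj x y)
    (hS : ∀ x y z, Blue G P y x → Blue G P y z → ¬ G.Adj x z)
    (I : Finset V) (hI : G.IsClique I) (hmax : I.card = G.cliqueNum) :
    ∀ n : ℕ, ∀ (w b : ℕ → V), (∀ u ∈ I, ¬ P (w 0) u) →
      (∀ i, i < n → Step G P I (b i) (w i) (w (i + 1))) → ∃ u ∈ I, Blue G P (w n) u := by
  classical
  intro n
  induction n using Nat.strong_induction_on with
  | _ n ih =>
  intro w b h0 hst
  by_contra hcon
  push Not at hcon
  -- two elements of `I` in one class are equal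
  have hII : ∀ u ∈ I, ∀ v ∈ I, P u v → u = v := by
    intro u hu v hv huv
    by_contra hne
    exact hP u v huv (hI hu hv hne)
  -- two blue neighbours in `I` are equal
  have hIB : ∀ x, ∀ u ∈ I, ∀ v ∈ I, Blue G P x u → Blue G P x v → u = v := by
    intro x u hu v hv h1 h2
    by_contra hne
    exact hS u x v h1 h2 (hI hu hv hne)
  -- the elements `b i` are different
  have hb : ∀ i j, i < j → j < n → b i ≠ b j := by
    intro i
    induction i with
    | zero =>
      intro j hij hjn heq
      have s0 := hst 0 (by omega)
      have sj := hst j hjn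
      obtain ⟨j', rfl⟩ : ∃ j', j = j' + 1 := ⟨j - 1, by omega⟩
      have sj' := hst j' (by omega)
      have hadj : G.Adj (w 0) (w (j' + 1 + 1)) := by
        by_contra hna
        have hblue : Blue G P (w 0) (w (j' + 1 + 1)) := by
          refine ⟨hna, fun h => s0.2.1.2 ?_⟩
          rw [heq]
          exact P.trans h (P.symm sj.2.2.1)
        have hww : ¬ G.Adj (w 0) (w (j' + 1)) :=
          hS _ (b 0) _ (blue_symm s0.2.1) (heq ▸ blue_symm sj.2.1)
        by_cases hPw : P (w 0) (w (j' + 1))
        · exact h0 (b j') sj'.1 (P.trans hPw (P.symm sj'.2.2.1))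
        · exact hS _ (w 0) _ ⟨hww, hPw⟩ hblue sj.2.2.2
      have hlt : n - (j' + 1) < n := by omega
      obtain ⟨u, hu, hub⟩ := ih (n - (j' + 1)) hlt
        (fun m => if m ≤ 0 then w m else w (m + (j' + 1)))
        (fun m => if m ≤ 0 then b m else b (m + (j' + 1))) (by simpa using h0) (by
          intro m hm
          by_cases h1 : m = 0
          · subst h1
            simp only [le_refl, if_true]
            rw [if_neg (by omega)]
            refine ⟨s0.1, s0.2.1, ?_, ?_⟩
            · rw [heq]
              have : 0 + 1 + (j' + 1) = j' + 1 + 1 := by omega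
              rw [this]
              exact sj.2.2.1
            · have : 0 + 1 + (j' + 1) = j' + 1 + 1 := by omega
              rw [this]
              exact hadj
          · rw [if_neg (by omega), if_neg (by omega), if_neg (by omega)]
            have := hst (m + (j' + 1)) (by omega)
            have e : m + 1 + (j' + 1) = m + (j' + 1) + 1 := by omega
            rw [e]
            exact this)
      refine hcon u hu ?_
      rw [if_neg (by omega)] at hub
      have e : n - (j' + 1) + (j' + 1) = n := by omega
      rwa [e] at hub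
    | succ i ihi =>
      intro j hij hjn heq
      have s0 := hst (i + 1) (by omega)
      have si := hst i (by omega)
      have sj := hst j hjn
      obtain ⟨j', rfl⟩ : ∃ j', j = j' + 1 := ⟨j - 1, by omega⟩
      have sj' := hst j' (by omega)
      have hadj : G.Adj (w (i + 1)) (w (j' + 1 + 1)) := by
        by_contra hna
        have hblue : Blue G P (w (i + 1)) (w (j' + 1 + 1)) := by
          refine ⟨hna, fun h => s0.2.1.2 ?_⟩
          rw [heq]
          exact P.trans h (P.symm sj.2.2.1)
        have hww : ¬ G.Adj (w (i + 1)) (w (j' + 1)) :=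
          hS _ (b (i + 1)) _ (blue_symm s0.2.1) (heq ▸ blue_symm sj.2.1)
        by_cases hPw : P (w (i + 1)) (w (j' + 1))
        · exact ihi j' (by omega) (by omega) (hII _ si.1 _ sj'.1
            (P.trans si.2.2.1 (P.trans hPw (P.symm sj'.2.2.1))))
        · exact hS _ (w (i + 1)) _ ⟨hww, hPw⟩ hblue sj.2.2.2
      have hlt : n - (j' - i) < n := by omega
      obtain ⟨u, hu, hub⟩ := ih (n - (j' - i)) hlt
        (fun m => if m ≤ i + 1 then w m else w (m + (j' - i)))
        (fun m => if m ≤ i + 1 then b m else b (m + (j' - i))) (by simpa using h0) (by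
          intro m hm
          by_cases h1 : m = i + 1
          · subst h1
            rw [if_pos le_rfl, if_pos le_rfl, if_neg (by omega)]
            have e : i + 1 + 1 + (j' - i) = j' + 1 + 1 := by omega
            rw [e]
            refine ⟨s0.1, s0.2.1, ?_, hadj⟩
            rw [heq]
            exact sj.2.2.1
          · by_cases h2 : m < i + 1
            · rw [if_pos (by omega), if_pos (by omega), if_pos (by omega)]
              exact hst m (by omega)
            · rw [if_neg (by omega), if_neg (by omega), if_neg (by omega)]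
              have := hst (m + (j' - i)) (by omega)
              have e : m + 1 + (j' - i) = m + (j' - i) + 1 := by omega
              rw [e]
              exact this)
      refine hcon u hu ?_
      rw [if_neg (by omega)] at hub
      have e : n - (j' - i) + (j' - i) = n := by omega
      rwa [e] at hub
  -- the classes of the `w i` are different
  have hw : ∀ i j, i < j → j ≤ n → ¬ P (w i) (w j) := by
    intro i j hij hjn hPw
    obtain ⟨j', rfl⟩ : ∃ j', j = j' + 1 := ⟨j - 1, by omega⟩
    have sj' := hst j' (by omega)
    rcases Nat.eq_zero_or_pos i with rfl | hi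
    · exact h0 (b j') sj'.1 (P.trans hPw (P.symm sj'.2.2.1))
    · obtain ⟨i', rfl⟩ : ∃ i', i = i' + 1 := ⟨i - 1, by omega⟩
      have si := hst i' (by omega)
      exact hb i' j' (by omega) (by omega) (hII _ si.1 _ sj'.1
        (P.trans si.2.2.1 (P.trans hPw (P.symm sj'.2.2.1))))
  have hwI : ∀ i, i ≤ n → w i ∉ I := by
    intro i hi hmem
    rcases Nat.eq_zero_or_pos i with rfl | hi0
    · exact h0 _ hmem (P.refl _)
    · obtain ⟨i', rfl⟩ : ∃ i', i = i' + 1 := ⟨i - 1, by omega⟩
      have si := hst i' (by omega)
      have heq := hII _ si.1 _ hmem si.2.2.1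
      apply si.2.1.1
      rw [heq]
      exact si.2.2.2
  -- the new clique
  have hmix : ∀ u ∈ I, (∀ i, i < n → b i ≠ u) → ∀ i, i ≤ n → G.Adj u (w i) := by
    intro u hu hub i hi
    by_contra hna
    by_cases hPu : P u (w i)
    · rcases Nat.eq_zero_or_pos i with rfl | hi0
      · exact h0 _ hu (P.symm hPu)
      · obtain ⟨i', rfl⟩ : ∃ i', i = i' + 1 := ⟨i - 1, by omega⟩
        have si := hst i' (by omega)
        exact hub i' (by omega) (hII _ si.1 _ hu (P.trans si.2.2.1 (P.symm hPu)))
    · have hbl : Blue G P (w i) u := blue_symm ⟨hna, hPu⟩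
      rcases lt_or_eq_of_le hi with hlt | rfl
      · exact hub i hlt (hIB _ _ (hst i hlt).1 _ hu (hst i hlt).2.1 hbl)
      · exact hcon u hu hbl
  have hww : ∀ i j, i < j → j ≤ n → G.Adj (w i) (w j) := by
    intro i j hij hjn
    by_cases hj : j = i + 1
    · subst hj
      exact (hst i (by omega)).2.2.2
    · by_contra hna
      have si := hst i (by omega)
      obtain ⟨j', rfl⟩ : ∃ j', j = j' + 1 := ⟨j - 1, by omega⟩
      have sj' := hst j' (by omega)
      have h1 : ¬ G.Adj (w (j' + 1)) (b i) :=
        hS _ (w i) _ ⟨hna, hw i _ hij hjn⟩ si.2.1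
      by_cases hPb : P (w (j' + 1)) (b i)
      · exact hb i j' (by omega) (by omega) (hII _ si.1 _ sj'.1
          (P.symm (P.trans sj'.2.2.1 hPb)))
      · rcases lt_or_eq_of_le hjn with hlt | heq
        · exact hb i (j' + 1) hij hlt
            (hIB _ _ si.1 _ (hst (j' + 1) hlt).1 ⟨h1, hPb⟩ (hst (j' + 1) hlt).2.1)
        · refine hcon (b i) si.1 ?_
          rw [← heq]
          exact ⟨h1, hPb⟩
  let J : Finset V := (I \ (Finset.range n).image b) ∪ (Finset.range (n + 1)).image w
  have hJ : G.IsClique (J : Set V) := by
    intro x hx y hy hxy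
    rw [Finset.mem_coe, Finset.mem_union, Finset.mem_sdiff, Finset.mem_image, Finset.mem_image]
      at hx hy
    rcases hx with ⟨hx, hxb⟩ | ⟨i, hi, rfl⟩ <;> rcases hy with ⟨hy, hyb⟩ | ⟨j, hj, rfl⟩
    · exact hI hx hy hxy
    · refine hmix x hx (fun i hi h => hxb ⟨i, Finset.mem_range.2 hi, h⟩) j ?_
      have := Finset.mem_range.1 hj
      omega
    · refine (hmix y hy (fun i hi h => hyb ⟨i, Finset.mem_range.2 hi, h⟩) i ?_).symm
      have := Finset.mem_range.1 hi
      omega
    · have h1 := Finset.mem_range.1 hi
      have h2 := Finset.mem_range.1 hj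
      rcases lt_trichotomy i j with hlt | rfl | hgt
      · exact hww i j hlt (by omega)
      · exact absurd rfl hxy
      · exact (hww j i hgt (by omega)).symm
  have hcard : J.card = I.card + 1 := by
    have hdis : Disjoint (I \ (Finset.range n).image b) ((Finset.range (n + 1)).image w) := by
      rw [Finset.disjoint_left]
      intro x hx hx'
      obtain ⟨i, hi, rfl⟩ := Finset.mem_image.1 hx'
      have := Finset.mem_range.1 hi
      exact hwI i (by omega) (Finset.mem_sdiff.1 hx).1
    have hsub : (Finset.range n).image b ⊆ I := by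
      intro x hx
      obtain ⟨i, hi, rfl⟩ := Finset.mem_image.1 hx
      exact (hst i (Finset.mem_range.1 hi)).1
    have hbinj : Set.InjOn b (Finset.range n : Set ℕ) := by
      intro i hi j hj hij
      have h1 := Finset.mem_range.1 (Finset.mem_coe.1 hi)
      have h2 := Finset.mem_range.1 (Finset.mem_coe.1 hj)
      rcases lt_trichotomy i j with hlt | rfl | hgt
      · exact absurd hij (hb i j hlt h2)
      · rfl
      · exact absurd hij.symm (hb j i hgt h1)
    have hwinj : Set.InjOn w (Finset.range (n + 1) : Set ℕ) := by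
      intro i hi j hj hij
      have h1 := Finset.mem_range.1 (Finset.mem_coe.1 hi)
      have h2 := Finset.mem_range.1 (Finset.mem_coe.1 hj)
      rcases lt_trichotomy i j with hlt | rfl | hgt
      · exact absurd (hij ▸ P.refl (w i)) (hw i j hlt (by omega))
      · rfl
      · exact absurd (hij ▸ P.refl (w i)) (hw j i hgt (by omega))
    have c1 : ((Finset.range n).image b).card = n := by
      rw [Finset.card_image_of_injOn hbinj, Finset.card_range]
    have c2 : ((Finset.range (n + 1)).image w).card = n + 1 := by
      rw [Finset.card_image_of_injOn hwinj, Finset.card_range]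
    have c3 := Finset.card_le_card hsub
    rw [Finset.card_union_of_disjoint hdis, Finset.card_sdiff_of_subset hsub, c1, c2]
    omega
  have := SimpleGraph.IsClique.card_le_cliqueNum (tc := hJ)
  omega

/-- A graph whose complement is elementary (with one colour class transitive) can be coloured with
as many colours as its largest clique has vertices. -/
theorem colorable_cliqueNum [Finite V] (hP : ∀ x y, P x y → ¬ G.Adj x y)
    (hS : ∀ x y z, ¬ G.Adj y x → ¬ P y x → ¬ G.Adj y z → ¬ P y z → ¬ G.Adj x z) :
    G.Colorable G.cliqueNum := by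
  classical
  obtain ⟨I, hI⟩ := G.exists_isNClique_cliqueNum
  have hS' : ∀ x y z, Blue G P y x → Blue G P y z → ¬ G.Adj x z :=
    fun x y z h1 h2 => hS x y z h1.1 h1.2 h2.1 h2.2
  let F : V → Prop := fun x => ∃ (n : ℕ) (w b : ℕ → V), (∀ u ∈ I, ¬ P (w 0) u) ∧
      (∀ i, i < n → Step G P I (b i) (w i) (w (i + 1))) ∧ w n = x
  have hF : ∀ x, F x → ∃ u ∈ I, Blue G P x u := by
    rintro x ⟨n, w, b, h0, h1, rfl⟩
    exact no_path hP hS' I hI.isClique hI.card_eq n w b h0 h1
  have hNF : ∀ x, ¬ F x → ∃ u ∈ I, P x u := by
    intro x hx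
    by_contra hcon
    push Not at hcon
    exact hx ⟨0, fun _ => x, fun _ => x, hcon, fun i hi => absurd hi (Nat.not_lt_zero i), rfl⟩
  have hex : ∀ x, ∃ u : I, (F x ∧ Blue G P x u) ∨ (¬ F x ∧ P x u) := by
    intro x
    by_cases h : F x
    · obtain ⟨u, hu, hb⟩ := hF x h
      exact ⟨⟨u, hu⟩, Or.inl ⟨h, hb⟩⟩
    · obtain ⟨u, hu, hb⟩ := hNF x h
      exact ⟨⟨u, hu⟩, Or.inr ⟨h, hb⟩⟩
  choose f hf using hex
  have hstep : ∀ x y : V, F x → ∀ u ∈ I, Blue G P x u → P y u → G.Adj x y → F y := by
    rintro x y ⟨n, w, b, h0, h1, rfl⟩ u hu hb hy hadj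
    refine ⟨n + 1, fun m => if m ≤ n then w m else y, fun m => if m < n then b m else u, ?_, ?_, ?_⟩
    · simpa using h0
    · intro i hi
      dsimp only
      rcases Nat.lt_succ_iff_lt_or_eq.1 hi with h | rfl
      · rw [if_pos h, if_pos h.le, if_pos (by omega)]
        exact h1 i h
      · rw [if_neg (lt_irrefl _), if_pos le_rfl, if_neg (by omega)]
        exact ⟨hu, hb, P.symm hy, hadj⟩
    · dsimp only
      rw [if_neg (by omega)]
  have hcol : G.Coloring I := SimpleGraph.Coloring.mk f (by
    intro x y hxy hfe
    have hx := hf x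
    have hy := hf y
    rw [← hfe] at hy
    rcases hx with ⟨hx, hbx⟩ | ⟨hx, hbx⟩ <;> rcases hy with ⟨hy, hby⟩ | ⟨hy, hby⟩
    · exact hS' x (f x : V) y (blue_symm hbx) (blue_symm hby) hxy
    · exact hy (hstep x y hx (f x) (f x).2 hbx hby hxy)
    · exact hx (hstep y x hy (f x) (f x).2 hby hbx hxy.symm)
    · exact hP x y (P.trans hbx (P.symm hby)) hxy)
  have := hcol.colorable
  rwa [Fintype.card_coe, hI.card_eq] at this

end

end Pool.Agent.Lib.MP_d64b07_co
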