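import Mathlib

set_option autoImplicit false

/-!
# MP_d64b07_co: maximal `d`-fold `k`-colourable graphs, definitions
-/

universe u

namespace Pool.Agent.Lib.MP_d64b07_co

/-- `P` is a `k`-colouring of `G`: a partition of the vertex set, given by its equivalence relation,
into at most `k` classes, each of which is independent in `G`. -/
def IsColouring {V : Type u} (G : SimpleGraph V) (k : ℕ) (P : Setoid V) : Prop :=
  P.classes.encard ≤ (k : ℕ∞) ∧ ∀ x y, P x y → ¬ G.Adj x y

/-- The number of the `k`-colourings of `G` (different partitions). -/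
noncomputable def numCol {V : Type u} (G : SimpleGraph V) (k : ℕ) : ℕ :=
  {P : Setoid V | IsColouring G k P}.ncard

/-- `G` is `d`-fold `k`-colourable: it has at least `d` pairwise distinct `k`-colourings. -/
def IsFold {V : Type u} (G : SimpleGraph V) (d k : ℕ) : Prop := d ≤ numCol G k

/-- `G` is maximal `d`-fold `k`-colourable: it is `d`-fold `k`-colourable, but `G + xy` is not, for
every pair of distinct nonadjacent vertices `x`, `y`. -/
def IsMaximalFold {V : Type u} (G : SimpleGraph V) (d k : ℕ) : Prop :=
  IsFold G d k ∧ ∀ x y, x ≠ y → ¬ G.Adj x y → ¬ IsFold (G ⊔ SimpleGraph.edge x y) d k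

/-- `G` has a `K_k` minor: there are `k` pairwise disjoint connected (in particular nonempty) vertex
sets, any two of which are joined by an edge of `G`. -/
def HasCliqueMinor {V : Type u} (G : SimpleGraph V) (k : ℕ) : Prop :=
  ∃ B : Fin k → Set V, (∀ i, (G.induce (B i)).Connected) ∧
    (∀ i j, i ≠ j → Disjoint (B i) (B j)) ∧
    ∀ i j, i ≠ j → ∃ x ∈ B i, ∃ y ∈ B j, G.Adj x y

end Pool.Agent.Lib.MP_d64b07_co
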