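import Pool.Agent.Lib.MP_d64b07_co.Main

set_option autoImplicit false

/-!
# MP_d64b07_co: the question is equivalent to the conjecture of Hadwiger
-/

universe u

namespace Pool.Agent.Lib.MP_d64b07_co

section

variable {V : Type u}

/-- A proper colouring with values in a type with at most `k` elements is a `k`-colouring. -/
theorem isColouring_ker {G : SimpleGraph V} {k : ℕ} {α : Type} [Fintype α]
    (hα : Fintype.card α ≤ k) (f : V → α) (hf : ∀ x y, G.Adj x y → f x ≠ f y) :
    IsColouring G k (Setoid.ker f) := by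
  refine ⟨?_, fun x y hxy h => hf x y h hxy⟩
  refine (Set.encard_le_encard (Setoid.classes_ker_subset_fiber_set f)).trans ?_
  rw [← Set.image_univ]
  refine (Set.encard_image_le _ _).trans ?_
  rw [Set.encard_univ, ENat.card_eq_coe_fintype_card]
  exact_mod_cast hα

/-- If `G - v` is `(k - 1)`-colourable for every `v` then any two nonadjacent vertices have the same
colour in some `k`-colouring. -/
theorem exists_same {G : SimpleGraph V} {k : ℕ} (hk : 1 ≤ k)
    (h : ∀ v, (G.induce {v}ᶜ).Colorable (k - 1)) (x y : V) (hxy : ¬ G.Adj x y) :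
    ∃ P, IsColouring G k P ∧ P x y := by
  classical
  obtain ⟨c⟩ := h x
  let f : V → Option (Fin (k - 1)) := fun v =>
    if hv : v = x then none else if v = y then none else some (c ⟨v, hv⟩)
  refine ⟨Setoid.ker f, isColouring_ker (by simp; omega) f ?_, ?_⟩
  · intro a b hab hf
    by_cases ha : a = x
    · by_cases hb : b = x
      · exact hab.ne (ha.trans hb.symm)
      · by_cases hb' : b = y
        · rw [ha, hb'] at hab
          exact hxy hab
        · simp only [f, dif_pos ha, dif_neg hb, if_neg hb'] at hf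
          cases hf
    · by_cases ha' : a = y
      · by_cases hb : b = x
        · rw [ha', hb] at hab
          exact hxy hab.symm
        · by_cases hb' : b = y
          · exact hab.ne (ha'.trans hb'.symm)
          · simp only [f, dif_neg ha, if_pos ha', dif_neg hb, if_neg hb'] at hf
            cases hf
      · by_cases hb : b = x
        · simp only [f, dif_neg ha, if_neg ha', dif_pos hb] at hf
          cases hf
        · by_cases hb' : b = y
          · simp only [f, dif_neg ha, if_neg ha', dif_neg hb, if_pos hb'] at hf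
            cases hf
          · simp only [f, dif_neg ha, if_neg ha', dif_neg hb, if_neg hb'] at hf
            have h1 : c ⟨a, ha⟩ = c ⟨b, hb⟩ := Option.some.inj hf
            exact c.valid (v := ⟨a, ha⟩) (w := ⟨b, hb⟩) hab h1
  · show f x = f y
    by_cases hy : y = x
    · rw [hy]
    · simp [f]

/-- A vertex-critical graph is maximal `d`-fold `k`-colourable for the number `d` of its
`k`-colourings. -/
theorem critical_maximal [Finite V] {G : SimpleGraph V} {k : ℕ} (hk : 1 ≤ k)
    (hG : ¬ G.Colorable (k - 1)) (h : ∀ v, (G.induce {v}ᶜ).Colorable (k - 1)) :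
    1 ≤ numCol G k ∧ IsMaximalFold G (numCol G k) k := by
  have := finite_setoid (V := V)
  have hne : Nonempty V := by
    by_contra hcon
    rw [not_nonempty_iff] at hcon
    exact hG (SimpleGraph.Colorable.of_isEmpty (k - 1))
  obtain ⟨v⟩ := hne
  obtain ⟨P, hP, -⟩ := exists_same hk h v v (G.irrefl)
  refine ⟨?_, le_refl _, fun x y hxy hadj => ?_⟩
  · exact Nat.one_le_iff_ne_zero.2 (Set.ncard_ne_zero_of_mem (a := P) hP (Set.toFinite _))
  · obtain ⟨Q, hQ, hQxy⟩ := exists_same hk h x y hadj
    unfold IsFold numCol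
    push Not
    refine Set.ncard_lt_ncard ?_ (Set.toFinite _)
    refine ⟨fun R hR => ((isColouring_add hxy).1 hR).1, fun hsub => ?_⟩
    exact ((isColouring_add hxy).1 (hsub hQ)).2 hQxy

/-- clique minors of an induced subgraph -/
theorem minor_induce {G : SimpleGraph V} {k : ℕ} {S : Set V}
    (h : HasCliqueMinor (G.induce S) k) : HasCliqueMinor G k := by
  obtain ⟨B, h1, h2, h3⟩ := h
  refine ⟨fun i => Subtype.val '' B i, fun i => ?_, fun i j hij => ?_, fun i j hij => ?_⟩
  · let f : (G.induce S).induce (B i) →g G.induce (Subtype.val '' B i) :=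
      { toFun := fun x => ⟨x.1.1, ⟨x.1, x.2, rfl⟩⟩
        map_rel' := fun {a b} hab => hab }
    refine SimpleGraph.Connected.map f ?_ (h1 i)
    rintro ⟨_, ⟨x, hx, rfl⟩⟩
    exact ⟨⟨x, hx⟩, rfl⟩
  · exact (Set.disjoint_image_iff Subtype.val_injective).2 (h2 i j hij)
  · obtain ⟨x, hx, y, hy, hxy⟩ := h3 i j hij
    exact ⟨x.1, ⟨x, hx, rfl⟩, y.1, ⟨y, hy, rfl⟩, hxy⟩

/-- The question for `k` (and all `d`) implies the conjecture of Hadwiger for `k`. -/
theorem hadwiger_of {k : ℕ} (hk : 1 ≤ k)
    (h : ∀ d, 1 ≤ d → ∀ (V : Type u) [Finite V] (G : SimpleGraph V), IsMaximalFold G d k →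
      G.Colorable (k - 1) ∨ HasCliqueMinor G k)
    (V : Type u) [Finite V] (G : SimpleGraph V) (hG : ¬ G.Colorable (k - 1)) :
    HasCliqueMinor G k := by
  obtain ⟨S, hS⟩ := exists_minimal_of_wellFoundedLT
    (fun S : Set V => ¬ (G.induce S).Colorable (k - 1)) ⟨Set.univ, fun hc => hG (by
      refine hc.of_hom ?_
      exact { toFun := fun x => ⟨x, Set.mem_univ x⟩, map_rel' := fun {a b} hab => hab })⟩
  have hcrit : ∀ v : S, ((G.induce S).induce {v}ᶜ).Colorable (k - 1) := by
    intro v
    have hlt : S \ {v.1} < S := by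
      refine ⟨Set.sdiff_subset, fun hsub => ?_⟩
      exact (hsub v.2).2 rfl
    have h1 := hS.not_prop_of_lt hlt
    push Not at h1
    refine h1.of_hom ?_
    exact
      { toFun := fun x => ⟨x.1.1, x.1.2, fun e => x.2 (Subtype.ext e)⟩
        map_rel' := fun {a b} hab => hab }
  obtain ⟨h1, h2⟩ := critical_maximal hk hS.prop hcrit
  rcases h _ h1 S (G.induce S) h2 with h3 | h3
  · exact absurd h3 hS.prop
  · exact minor_induce h3

end

end Pool.Agent.Lib.MP_d64b07_co
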