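import Pool.Agent.Lib.MP_d64b07_co.Defs
import Pool.Agent.Lib.MP_d64b07_co.Core

set_option autoImplicit false

/-!
# MP_d64b07_co: the two theorems
-/

universe u

namespace Pool.Agent.Lib.MP_d64b07_co

section

variable {V : Type u}

/-- The colourings of `G + xy` are the colourings of `G` in which `x` and `y` have different
colours. -/
theorem isColouring_add {G : SimpleGraph V} {k : ℕ} {P : Setoid V} {x y : V} (hxy : x ≠ y) :
    IsColouring (G ⊔ SimpleGraph.edge x y) k P ↔ IsColouring G k P ∧ ¬ P x y := by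
  constructor
  · rintro ⟨h1, h2⟩
    refine ⟨⟨h1, fun a b hab h => h2 a b hab (Or.inl h)⟩, fun h => h2 x y h (Or.inr ?_)⟩
    rw [SimpleGraph.edge_adj]
    exact ⟨Or.inl ⟨rfl, rfl⟩, hxy⟩
  · rintro ⟨⟨h1, h2⟩, h3⟩
    refine ⟨h1, fun a b hab h => ?_⟩
    rcases h with h | h
    · exact h2 a b hab h
    · rw [SimpleGraph.edge_adj] at h
      rcases h.1 with ⟨rfl, rfl⟩ | ⟨rfl, rfl⟩
      · exact h3 hab
      · exact h3 (P.symm hab)

/-- In a maximal `d`-fold `k`-colourable graph with `m` colourings, two nonadjacent vertices have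
the same colour in more than `m - d` of them. -/
theorem agree [Finite V] {G : SimpleGraph V} {d k : ℕ} (h : IsMaximalFold G d k) {x y : V}
    (hxy : ¬ G.Adj x y) :
    numCol G k < {P : Setoid V | IsColouring G k P ∧ P x y}.ncard + d ∨ x = y := by
  by_cases hne : x = y
  · exact Or.inr hne
  left
  have h1 := h.2 x y hne hxy
  unfold IsFold numCol at h1
  push Not at h1
  have h2 : {P : Setoid V | IsColouring G k P} =
      {P : Setoid V | IsColouring G k P ∧ P x y} ∪
        {P : Setoid V | IsColouring (G ⊔ SimpleGraph.edge x y) k P} := by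
    ext P
    simp only [Set.mem_ofPred_eq, Set.mem_union, isColouring_add hne]
    tauto
  have h3 := Set.ncard_union_le {P : Setoid V | IsColouring G k P ∧ P x y}
    {P : Setoid V | IsColouring (G ⊔ SimpleGraph.edge x y) k P}
  rw [← h2] at h3
  unfold numCol
  omega

theorem finite_setoid [Finite V] : Finite (Setoid V) := by
  refine Finite.of_injective (fun P : Setoid V => fun a b : V => P a b) ?_
  intro P Q h
  exact Setoid.ext fun a b => iff_of_eq (congrFun (congrFun h a) b)

/-- With at least `2 d - 2` colourings the hypothesis of `colorable_cliqueNum` is satisfied. -/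
theorem elementary [Finite V] {G : SimpleGraph V} {d k : ℕ} (h : IsMaximalFold G d k)
    (hm : 2 * d ≤ numCol G k + 2) {P : Setoid V} (hP : IsColouring G k P) (x y z : V)
    (h1 : ¬ G.Adj y x) (h2 : ¬ P y x) (h3 : ¬ G.Adj y z) (h4 : ¬ P y z) : ¬ G.Adj x z := by
  classical
  intro hxz
  have hyx : y ≠ x := fun e => h2 (e ▸ P.refl y)
  have hyz : y ≠ z := fun e => h4 (e ▸ P.refl y)
  have a1 := (agree h h1).resolve_right hyx
  have a2 := (agree h h3).resolve_right hyz
  have := finite_setoid (V := V)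
  have hfin : ∀ S : Set (Setoid V), S.Finite := fun S => S.toFinite
  have hdis : Disjoint {Q : Setoid V | IsColouring G k Q ∧ Q y x}
      {Q : Setoid V | IsColouring G k Q ∧ Q y z} := by
    rw [Set.disjoint_left]
    rintro Q ⟨hQ, hx⟩ ⟨_, hz⟩
    exact hQ.2 x z (Q.trans (Q.symm hx) hz) hxz
  have hsub : {Q : Setoid V | IsColouring G k Q ∧ Q y x} ∪
      {Q : Setoid V | IsColouring G k Q ∧ Q y z} ⊆ {Q : Setoid V | IsColouring G k Q} \ {P} := by
    rintro Q (⟨hQ, hx⟩ | ⟨hQ, hz⟩)
    · refine ⟨hQ, fun e => h2 ?_⟩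
      rw [Set.mem_singleton_iff] at e
      rwa [← e]
    · refine ⟨hQ, fun e => h4 ?_⟩
      rw [Set.mem_singleton_iff] at e
      rwa [← e]
  have b1 := Set.ncard_le_ncard hsub (hfin _)
  rw [Set.ncard_union_eq hdis (hfin _) (hfin _)] at b1
  have b2 : ({Q : Setoid V | IsColouring G k Q} \ {P}).ncard + 1 = numCol G k :=
    Set.ncard_sdiff_singleton_add_one hP (hfin _)
  omega

/-- With at least `2 d - 1` colourings the graph is complete multipartite. -/
theorem complete_multipartite [Finite V] {G : SimpleGraph V} {d k : ℕ} (h : IsMaximalFold G d k)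
    (hm : 2 * d ≤ numCol G k + 1) : G.IsCompleteMultipartite := by
  refine ⟨fun x y z h1 h3 hxz => ?_⟩
  have := finite_setoid (V := V)
  have hfin : ∀ S : Set (Setoid V), S.Finite := fun S => S.toFinite
  have hxy : x ≠ y := fun e => h3 (e ▸ hxz)
  have hyz : y ≠ z := fun e => h1 (e ▸ hxz)
  have a1 := (agree h h1).resolve_right hxy
  have a2 := (agree h h3).resolve_right hyz
  have hdis : Disjoint {Q : Setoid V | IsColouring G k Q ∧ Q x y}
      {Q : Setoid V | IsColouring G k Q ∧ Q y z} := by
    rw [Set.disjoint_left]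
    rintro Q ⟨hQ, hx⟩ ⟨_, hz⟩
    exact hQ.2 x z (Q.trans hx hz) hxz
  have hsub : {Q : Setoid V | IsColouring G k Q ∧ Q x y} ∪
      {Q : Setoid V | IsColouring G k Q ∧ Q y z} ⊆ {Q : Setoid V | IsColouring G k Q} := by
    rintro Q (⟨hQ, _⟩ | ⟨hQ, _⟩) <;> exact hQ
  have b1 := Set.ncard_le_ncard hsub (hfin _)
  rw [Set.ncard_union_eq hdis (hfin _) (hfin _)] at b1
  unfold numCol at a1 a2 hm
  omega

/-- The main theorem on graphs with many colourings. -/
theorem perfect [Finite V] {G : SimpleGraph V} {d k : ℕ} (hd : 1 ≤ d) (h : IsMaximalFold G d k)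
    (hm : 2 * d ≤ numCol G k + 2) (s : Set V) :
    (G.induce s).Colorable (G.induce s).cliqueNum := by
  have hne : {P : Setoid V | IsColouring G k P}.Nonempty := by
    by_contra hcon
    rw [Set.not_nonempty_iff_eq_empty] at hcon
    have h1 := h.1
    unfold IsFold numCol at h1
    rw [hcon, Set.ncard_empty] at h1
    omega
  obtain ⟨P, hP⟩ := hne
  refine colorable_cliqueNum (P := P.comap (Subtype.val : s → V)) ?_ ?_
  · intro x y hxy hadj
    exact hP.2 x y hxy hadj
  · intro x y z h1 h2 h3 h4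
    exact elementary h hm hP x y z h1 h2 h3 h4

end

end Pool.Agent.Lib.MP_d64b07_co
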